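import Pool.Agent.W500.CS.Stm

set_option autoImplicit false

open MeasureTheory Polynomial Metric Set Filter Topology
open scoped ComplexConjugate

namespace Pool.Agent.W400.CQ.ARCG

open Pool.Agent.W500.CS

theorem main : S_ARCV → S_SEP → S_DIFC → S_ARCG := by
  intro hARCV hSEP hDIFC r R U B h hR hU hD hB h0 hh γ hγ hγ0 hγ' hgen
  obtain ⟨i, ε, hε, hi⟩ := hARCV r R U B h hR hU hD hB h0 hh γ hγ hγ0 hγ'
  have hBan : ∀ j, AnalyticAt ℂ (B j) 0 := fun j => (hB j).analyticAt (Metric.ball_mem_nhds 0 hR)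
  have hψ : ∀ j, AnalyticAt ℝ (fun q => (B j (γ q) * deriv γ q).re) 0 := by
    intro j
    have h1 : AnalyticAt ℝ (B j) (γ 0) := by
      rw [hγ0]; exact (hBan j).restrictScalars
    have h2 : AnalyticAt ℝ (fun q => B j (γ q)) 0 := h1.comp hγ
    have h3 : AnalyticAt ℝ (fun q => B j (γ q) * deriv γ q) 0 := h2.mul hγ.deriv
    exact (Complex.reCLM.analyticAt _).comp h3
  obtain ⟨ε₁, hε₁, -, hsep⟩ := hSEP r _ hψ
  have hev : ∀ᶠ q in 𝓝 (0 : ℝ), AnalyticAt ℝ γ q ∧ γ q ∈ ball (0 : ℂ) R := by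
    refine hγ.eventually_analyticAt.and ?_
    refine hγ.continuousAt.eventually_mem ?_
    rw [hγ0]
    exact Metric.ball_mem_nhds 0 hR
  obtain ⟨ε₂, hε₂, h₂⟩ := Metric.eventually_nhds_iff.1 hev
  have hder : ∀ k, ∀ q : ℝ, |q| < ε₂ →
      HasDerivAt (fun q => (h k (γ q)).re) ((B k (γ q) * deriv γ q).re) q := by
    intro k q hq
    have hq2 := h₂ (y := q) (by rw [Real.dist_eq, sub_zero]; exact hq)
    have h1 : HasDerivAt γ (deriv γ q) q := hq2.1.differentiableAt.hasDerivAt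
    have h3 : HasDerivAt (h k ∘ γ) (B k (γ q) * deriv γ q) q :=
      (hh k (γ q) hq2.2).comp q h1
    exact (Complex.reCLM.hasFDerivAt.comp_hasDerivAt q h3)
  have key : ∀ j, j ≠ i → ∀ q ∈ Ioo 0 ε₁,
      (B j (γ q) * deriv γ q).re ≠ (B i (γ q) * deriv γ q).re := by
    intro j hj q hq heq
    rcases hsep j i with hs | hs | hs
    · refine hgen j i hj ?_
      have hpos : 0 < min ε₁ ε₂ := lt_min hε₁ hε₂
      filter_upwards [Ioo_mem_nhdsGT hpos] with x hx
      have hx1 : x < ε₁ := lt_of_lt_of_le hx.2 (min_le_left _ _)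
      have hx2 : x < ε₂ := lt_of_lt_of_le hx.2 (min_le_right _ _)
      have habs : ∀ y ∈ Icc 0 x, |y| < ε₂ := fun y hy => by
        rw [abs_of_nonneg hy.1]; exact lt_of_le_of_lt hy.2 hx2
      obtain ⟨c, hc, hc'⟩ := exists_hasDerivAt_eq_slope
        (fun q => (h j (γ q)).re - (h i (γ q)).re)
        (fun q => (B j (γ q) * deriv γ q).re - (B i (γ q) * deriv γ q).re) hx.1
        (fun y hy => ((hder j y (habs y hy)).sub
          (hder i y (habs y hy))).continuousAt.continuousWithinAt)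
        (fun y hy => (hder j y (habs y ⟨hy.1.le, hy.2.le⟩)).sub
          (hder i y (habs y ⟨hy.1.le, hy.2.le⟩)))
      have hz : (B j (γ c) * deriv γ c).re - (B i (γ c) * deriv γ c).re = 0 :=
        sub_eq_zero.2 (hs c ⟨hc.1, hc.2.trans hx1⟩)
      have hc'' : (0 : ℝ) = ((h j (γ x)).re - (h i (γ x)).re - ((h j (γ 0)).re - (h i (γ 0)).re)) /
          (x - 0) := hz.symm.trans hc'
      rw [hγ0, h0 j, h0 i] at hc''
      have hx0 : x ≠ 0 := hx.1.ne'
      have := hc''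
      field_simp at this
      simp only [Complex.zero_re, sub_zero] at this
      have h5 : (h j (γ x)).re - (h i (γ x)).re = 0 := by
        simpa using this.symm
      exact sub_eq_zero.1 h5
    · exact absurd heq (ne_of_lt (hs q hq))
    · exact absurd heq (ne_of_gt (hs q hq))
  refine ⟨i, min ε (min ε₁ ε₂), lt_min hε (lt_min hε₁ hε₂), ?_⟩
  intro q hq
  have hq1 : q < ε := lt_of_lt_of_le hq.2 (min_le_left _ _)
  have hq2 : q < ε₁ := lt_of_lt_of_le hq.2 ((min_le_right _ _).trans (min_le_left _ _))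
  have hq3 : q < ε₂ := lt_of_lt_of_le hq.2 ((min_le_right _ _).trans (min_le_right _ _))
  obtain ⟨ha, hb, hc⟩ := hi q ⟨hq.1, hq1⟩
  refine ⟨ha, hb, ?_⟩
  have hq4 := h₂ (y := q) (by rw [Real.dist_eq, sub_zero, abs_of_pos hq.1]; exact hq3)
  have hcd : ContDiffAt ℝ 2 γ q := hq4.1.contDiffAt
  have := hDIFC r _ U B hD γ q ha hcd i hc (fun j hj => key j hj q ⟨hq.1, hq2⟩)
  exact this.self_of_nhds

end Pool.Agent.W400.CQ.ARCG
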